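import Pool.Agent.Lib.MP_7f6eca_an.Main
import Pool.Agent.Lib.MP_7f6eca_an.Open

namespace Pool.Agent.Results.MP_7f6eca_an.NotUnique

open Pool.Agent.Lib.MP_7f6eca_an

section

variable {E : Type} [AddCommGroup E] [Module ℝ E] (q : E → ℝ)

/-- A bounded real-linear bijection intertwines `J₁` and `J₂`. -/
def BijCS (J₁ J₂ : E →ₗ[ℝ] E) : Prop :=
  ∃ T : E →ₗ[ℝ] E, BddFor q T ∧ Function.Bijective T ∧ ∀ z, T (J₁ z) = J₂ (T z)

/-- Any two complex structures on the space with quasi-norm `q` are intertwined by a bounded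
real-linear bijection. -/
def AllBij : Prop := ∀ J₁ J₂ : E →ₗ[ℝ] E, IsCS q J₁ → IsCS q J₂ → BijCS q J₁ J₂

end

/-- The Kalton-Peck space has two complex structures that no bounded bijection intertwines. -/
theorem result : ¬ AllBij qnorm := by
  intro h
  obtain ⟨T, h1, hb, h3⟩ := h J2 J1 J2_cs J1_cs
  let U := LinearEquiv.ofBijective T hb
  exact no_iso (T := U.toLinearMap) h1 (bdd_symm U h1) U.apply_symm_apply U.symm_apply_apply h3

end Pool.Agent.Results.MP_7f6eca_an.NotUnique
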